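import Pool.Agent.Helper37.SU.Stmts

set_option autoImplicit false

namespace Pool.Agent.Helper37.SU

open Finset

theorem MNS_summable (A : ℕ) : Summable (fun i : ℕ => (1 + (i : ℝ)) ^ A * (1 / 2 : ℝ) ^ i) := by
  have h1 : Summable (fun n : ℕ => (n : ℝ) ^ A * (1 / 2 : ℝ) ^ n) :=
    summable_pow_mul_geometric_of_norm_lt_one A (by norm_num)
  have h2 := (summable_nat_add_iff 1).2 h1
  have h3 := h2.mul_left 2
  refine h3.congr fun n => ?_
  push_cast
  ring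

theorem st_MNS : ST_MNS := by
  intro b A hb
  set CA : ℝ := ∑' i : ℕ, (1 + (i : ℝ)) ^ A * (1 / 2 : ℝ) ^ i with hCA
  have hCA0 : 0 ≤ CA := tsum_nonneg fun i => by positivity
  refine ⟨(1 + CA) * 2 ^ (A + 1), by positivity, fun D S hS => ?_⟩
  have hS0 : 0 < S := by linarith
  have hlog : 0 ≤ Real.log S := Real.log_nonneg hS
  set l0 : ℕ := ⌈Real.logb 2 S⌉₊ with hl0
  have hl1 : S ≤ (2 : ℝ) ^ l0 := by
    have h1 : Real.logb 2 S ≤ l0 := Nat.le_ceil _
    have h2 : S = (2 : ℝ) ^ (Real.logb 2 S) := (Real.rpow_logb (by norm_num) (by norm_num) hS0).symm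
    calc S = (2 : ℝ) ^ (Real.logb 2 S) := h2
      _ ≤ (2 : ℝ) ^ (l0 : ℝ) := Real.rpow_le_rpow_of_exponent_le (by norm_num) h1
      _ = (2 : ℝ) ^ l0 := Real.rpow_natCast _ _
  have hl2 : 1 + (l0 : ℝ) ≤ 2 * (1 + Real.log S) := by
    have h1 : (l0 : ℝ) < Real.logb 2 S + 1 := by
      apply Nat.ceil_lt_add_one
      exact Real.logb_nonneg (by norm_num) hS
    have h2 : Real.logb 2 S ≤ 2 * Real.log S := by
      unfold Real.logb
      rw [div_le_iff₀ (Real.log_pos (by norm_num))]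
      have h3 : (0.6931471803 : ℝ) < Real.log 2 := Real.log_two_gt_d9
      nlinarith
    linarith
  have hb2 : (2 : ℝ) ≤ b := by exact_mod_cast hb
  set g : ℕ → ℝ := fun δ => (1 + (δ : ℝ)) ^ A * min 1 (S * ((b : ℝ) ^ δ)⁻¹) with hg
  have hg0 : ∀ δ, 0 ≤ g δ := fun δ => by
    rw [hg]
    have : 0 ≤ S * ((b : ℝ) ^ δ)⁻¹ := by positivity
    exact mul_nonneg (by positivity) (le_min zero_le_one this)
  have h1 : ∑ δ ∈ range D, g δ ≤ ∑ δ ∈ range (l0 + D), g δ := by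
    apply Finset.sum_le_sum_of_subset_of_nonneg
    · intro x hx
      rw [mem_range] at *
      omega
    · intro i _ _
      exact hg0 i
  refine h1.trans ?_
  rw [Finset.sum_range_add]
  have h2 : ∑ δ ∈ range l0, g δ ≤ (1 + (l0 : ℝ)) ^ (A + 1) := by
    calc ∑ δ ∈ range l0, g δ ≤ ∑ δ ∈ range l0, (1 + (l0 : ℝ)) ^ A := by
          refine Finset.sum_le_sum fun δ hδ => ?_
          rw [mem_range] at hδ
          have h3 : (δ : ℝ) ≤ l0 := by exact_mod_cast hδ.le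
          calc g δ ≤ (1 + (δ : ℝ)) ^ A * 1 :=
                mul_le_mul_of_nonneg_left (min_le_left _ _) (by positivity)
            _ ≤ (1 + (l0 : ℝ)) ^ A := by
                rw [mul_one]
                exact pow_le_pow_left₀ (by positivity) (by linarith) A
      _ = l0 * (1 + (l0 : ℝ)) ^ A := by rw [sum_const, card_range, nsmul_eq_mul]
      _ ≤ (1 + (l0 : ℝ)) * (1 + (l0 : ℝ)) ^ A :=
          mul_le_mul_of_nonneg_right (by linarith) (by positivity)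
      _ = (1 + (l0 : ℝ)) ^ (A + 1) := by ring
  have h3 : ∑ i ∈ range D, g (l0 + i) ≤ (1 + (l0 : ℝ)) ^ (A + 1) * CA := by
    have h4 : ∀ i : ℕ, g (l0 + i) ≤ (1 + (l0 : ℝ)) ^ A * ((1 + (i : ℝ)) ^ A * (1 / 2 : ℝ) ^ i) := by
      intro i
      have h5 : S * ((b : ℝ) ^ (l0 + i))⁻¹ ≤ (1 / 2 : ℝ) ^ i := by
        rw [← div_eq_mul_inv, div_le_iff₀ (by positivity)]
        have h6 : (2 : ℝ) ^ (l0 + i) ≤ (b : ℝ) ^ (l0 + i) :=
          pow_le_pow_left₀ (by norm_num) hb2 _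
        calc S ≤ (2 : ℝ) ^ l0 := hl1
          _ = (1 / 2 : ℝ) ^ i * (2 : ℝ) ^ (l0 + i) := by
              rw [pow_add, one_div, inv_pow]
              field_simp
          _ ≤ (1 / 2 : ℝ) ^ i * (b : ℝ) ^ (l0 + i) :=
              mul_le_mul_of_nonneg_left h6 (by positivity)
      have h7 : (1 + ((l0 + i : ℕ) : ℝ)) ^ A ≤ ((1 + (l0 : ℝ)) * (1 + (i : ℝ))) ^ A := by
        apply pow_le_pow_left₀ (by positivity)
        push_cast
        nlinarith [show (0 : ℝ) ≤ (l0 : ℝ) * i by positivity]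
      calc g (l0 + i) ≤ (1 + ((l0 + i : ℕ) : ℝ)) ^ A * (1 / 2 : ℝ) ^ i :=
            mul_le_mul_of_nonneg_left ((min_le_right _ _).trans h5) (by positivity)
        _ ≤ ((1 + (l0 : ℝ)) * (1 + (i : ℝ))) ^ A * (1 / 2 : ℝ) ^ i :=
            mul_le_mul_of_nonneg_right h7 (by positivity)
        _ = (1 + (l0 : ℝ)) ^ A * ((1 + (i : ℝ)) ^ A * (1 / 2 : ℝ) ^ i) := by
            rw [mul_pow]; ring
    calc ∑ i ∈ range D, g (l0 + i) ≤
          ∑ i ∈ range D, (1 + (l0 : ℝ)) ^ A * ((1 + (i : ℝ)) ^ A * (1 / 2 : ℝ) ^ i) :=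
          Finset.sum_le_sum fun i _ => h4 i
      _ = (1 + (l0 : ℝ)) ^ A * ∑ i ∈ range D, (1 + (i : ℝ)) ^ A * (1 / 2 : ℝ) ^ i := by
          rw [Finset.mul_sum]
      _ ≤ (1 + (l0 : ℝ)) ^ A * CA := by
          apply mul_le_mul_of_nonneg_left _ (by positivity)
          exact (MNS_summable A).sum_le_tsum _ (fun i _ => by positivity)
      _ ≤ (1 + (l0 : ℝ)) ^ (A + 1) * CA := by
          apply mul_le_mul_of_nonneg_right _ hCA0
          apply pow_le_pow_right₀ _ (Nat.le_succ A)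
          have : (0 : ℝ) ≤ l0 := by positivity
          linarith
  calc ∑ δ ∈ range l0, g δ + ∑ i ∈ range D, g (l0 + i) ≤
        (1 + (l0 : ℝ)) ^ (A + 1) + (1 + (l0 : ℝ)) ^ (A + 1) * CA := add_le_add h2 h3
    _ = (1 + CA) * (1 + (l0 : ℝ)) ^ (A + 1) := by ring
    _ ≤ (1 + CA) * (2 * (1 + Real.log S)) ^ (A + 1) := by
        apply mul_le_mul_of_nonneg_left _ (by positivity)
        exact pow_le_pow_left₀ (by positivity) hl2 _
    _ = (1 + CA) * 2 ^ (A + 1) * (1 + Real.log S) ^ (A + 1) := by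
        rw [mul_pow]; ring

end Pool.Agent.Helper37.SU
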